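import Pool.Agent.Q44.PE.Stm

/-!
# Project PE: a more general form of E_inf
-/

set_option autoImplicit false

namespace Pool.Agent.Q44.PE

open MvPolynomial Pool.Agent.Q44.SA Pool.Agent.Q44.PG

/-- **E_inf2.** Like E_inf, for the points of the closure of `A` (over any field). Same proof: the polynomials
`χ.F l a * χ'.F l' b - χ.F l b * χ'.F l' a` are in `Van A`. -/
def E_inf2 : Prop := ∀ (K : Type) [Field K] [CharZero K] (n : ℕ) (I : Ideal (MvPolynomial (Fin n) K)), I.IsPrime → Homog I →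
  ∀ (S : Type) (φ ψ : S → Mor I), (∀ s, LeftInv (ψ s) (φ s)) → (∀ s, LeftInv (φ s) (ψ s)) →
  ∀ A : Set (Fin n → K), (∀ x ∈ A, Pt (RingHom.id K) I x) → Types φ ψ A →
  ∀ (F : Type) [Field F] (σ : K →+* F) (x : Fin n → F), Pt σ (Van A) x → FinPt φ ψ σ x

theorem inf_of_inf2 (h : E_inf2) : E_inf := by
  intro K _ _ n I hI hom S φ ψ h1 h2 A hA hAI hT F _ σ x hx
  exact h K n I hI hom S φ ψ h1 h2 A hA hT F σ x (hAI ▸ hx)

end Pool.Agent.Q44.PE
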