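import Pool.Agent.Q26.PE.IN
import Pool.Agent.Q44.PE.Stm2
import Pool.Agent.Q96.PG.VA

/-!
# Project PE: the general form of E_inf (adapted from the proof of helper26)
-/

set_option autoImplicit false

namespace Pool.Agent.Q44.PE

open MvPolynomial Pool.Agent.Q44.SA Pool.Agent.Q44.PG
open Pool.Agent.Q190.SA (rel_exists rel_pt pt_smul agree_at eval2_smul)
open Pool.Agent.Q26.PE.OR (reach_pt reach_exists)

open Pool.Agent.Q26.PE.IN (mul_of_rel)

theorem inf2 (h : E_word) : E_inf2 := by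
  intro K _ _ n I hIp hI S φ ψ h1 h2 A hA ⟨T, hT, τ, hτ⟩ F _ σ x hxA
  have hIA : I ≤ Van A := (Pool.Agent.Q96.PG.VA.main K n I hI A hA).2.2.1
  have hx : Pt σ I x := ⟨hxA.1, fun f hf => hxA.2 f (hIA hf)⟩
  classical
  -- the representatives
  obtain ⟨g, hg⟩ : ∃ g : T → Fin n → F, ∀ w y, Reach φ ψ σ w x y →
      ∃ w', τ w' = τ w ∧ Reach φ ψ σ w' x (g (τ w)) := by
    refine ⟨fun t => if h : ∃ e : Fin n → F, ∃ w', τ w' = t ∧ Reach φ ψ σ w' x e then h.choose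
      else 0, fun w y hy => ?_⟩
    have h3 : ∃ e : Fin n → F, ∃ w', τ w' = τ w ∧ Reach φ ψ σ w' x e := ⟨y, w, rfl, hy⟩
    simp only [dif_pos h3]
    exact h3.choose_spec
  let _ : Fintype T := Fintype.ofFinite T
  refine ⟨Finset.univ.image g, fun w y hy => ⟨g (τ w), Finset.mem_image_of_mem g (Finset.mem_univ _), ?_⟩⟩
  obtain ⟨w', hw', hy'⟩ := hg w y hy
  obtain ⟨e, he⟩ : ∃ e : Fin n → F, e = g (τ w) := ⟨_, rfl⟩
  rw [← he] at hy' ⊢
  obtain ⟨χ, hχ⟩ := h K n I hIp hI S φ ψ w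
  obtain ⟨χ', hχ'⟩ := h K n I hIp hI S φ ψ w'
  have hD : ∀ l l' a b, χ.F l a * χ'.F l' b - χ.F l b * χ'.F l' a ∈ Van A := by
    intro l l' a b
    intro p hp t
    obtain ⟨y1, hy1⟩ := reach_exists (φ := φ) (ψ := ψ) hI (hA p hp) w
    obtain ⟨y2, hy2⟩ := reach_exists (φ := φ) (ψ := ψ) hI (hA p hp) w'
    obtain ⟨c, hc, hcy⟩ := hτ w w' hw'.symm p hp y1 y2 hy1 hy2
    obtain ⟨s, hs⟩ := mul_of_rel χ (hA p hp) (hχ K (RingHom.id K) p y1 (hA p hp) hy1) l
    obtain ⟨s', hs'⟩ := mul_of_rel χ' (hA p hp) (hχ' K (RingHom.id K) p y2 (hA p hp) hy2) l'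
    have e1 : ∀ i, eval (t • p) (χ.F l i) = t ^ χ.d l * (s * y1 i) := fun i => by
      have := eval2_smul (RingHom.id K) (χ.hom l i) t p
      rw [hs i, eval₂_id] at this
      exact this
    have e2 : ∀ i, eval (t • p) (χ'.F l' i) = t ^ χ'.d l' * (s' * (c * y1 i)) := fun i => by
      have := eval2_smul (RingHom.id K) (χ'.hom l' i) t p
      rw [hs' i, eval₂_id, hcy, Pi.smul_apply, smul_eq_mul] at this
      exact this
    rw [map_sub, map_mul, map_mul, e1, e1, e2, e2]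
    ring
  obtain ⟨l, ⟨a, ha⟩, c, hc, hyc⟩ := hχ F σ x y hx hy
  obtain ⟨l', ⟨b, hb⟩, c', hc', hec⟩ := hχ' F σ x e hx hy'
  have hprop : ∀ i j, y i * e j = y j * e i := by
    intro i j
    have h3 := hxA.2 _ (hD l l' i j)
    rw [← coe_eval₂Hom, map_sub, map_mul, map_mul, coe_eval₂Hom] at h3
    rw [hyc i, hyc j, hec i, hec j]
    linear_combination c * c' * h3
  have heb : e b ≠ 0 := by
    rw [hec b]
    exact mul_ne_zero hc' hb
  have hya : y a ≠ 0 := by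
    rw [hyc a]
    exact mul_ne_zero hc ha
  have hyb : y b ≠ 0 := by
    intro h0
    have h3 := hprop a b
    rw [h0, zero_mul] at h3
    exact (mul_ne_zero hya heb) h3
  refine ⟨y b / e b, div_ne_zero hyb heb, ?_⟩
  funext i
  rw [Pi.smul_apply, smul_eq_mul, div_mul_eq_mul_div, eq_div_iff heb]
  exact hprop i b

end Pool.Agent.Q44.PE
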