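import Pool.Agent.Q44.PE.Stm

set_option autoImplicit false

namespace Pool.Agent.Q44.PE.Tay

open MvPolynomial Pool.Agent.Q44.PE

theorem main : E_tay := by
  intro L _ _ n f hf ε hε hε1 P x y hP hx hy
  have nadd : ∀ {a b : L} {C : ℝ}, ‖a‖ ≤ C → ‖b‖ ≤ C → ‖a + b‖ ≤ C := fun ha hb =>
    (IsUltrametricDist.norm_add_le_max _ _).trans (max_le ha hb)
  have hx1 : ‖x‖ ≤ 1 := by
    have : x = (x - P) + P := by abel
    rw [this]
    exact (IsUltrametricDist.norm_add_le_max _ _).trans (max_le (hx.trans hε1) hP)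
  have hy1 : ‖y‖ ≤ 1 := by
    have : y = (y - P) + P := by abel
    rw [this]
    exact (IsUltrametricDist.norm_add_le_max _ _).trans (max_le (hy.trans hε1) hP)
  have hyx : 0 ≤ ‖y - x‖ := norm_nonneg _
  -- the property
  let Q : MvPolynomial (Fin n) L → Prop := fun g =>
    ‖eval x g‖ ≤ 1 ∧ ‖eval y g‖ ≤ 1 ∧ ‖eval P g‖ ≤ 1 ∧ ‖eval y g - eval P g‖ ≤ ε ∧ ‖eval x g - eval P g‖ ≤ ε ∧
      (∀ a, ‖eval P (pderiv a g)‖ ≤ 1) ∧ ‖eval y g - eval x g‖ ≤ ‖y - x‖ ∧
      ‖eval y g - eval x g - ∑ a, eval P (pderiv a g) * (y a - x a)‖ ≤ ε * ‖y - x‖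
  have hC : ∀ a : L, ‖a‖ ≤ 1 → Q (C a) := by
    intro a ha
    simp only [Q, eval_C, sub_self, norm_zero, pderiv_C, map_zero, zero_mul, Finset.sum_const_zero]
    exact ⟨ha, ha, ha, hε, hε, fun _ => zero_le_one, hyx, mul_nonneg hε hyx⟩
  have hX : ∀ i, Q (X i) := by
    intro i
    have h1 : ∀ v : Fin n → L, ‖v i‖ ≤ ‖v‖ := fun v => norm_le_pi_norm v i
    have hs : ∑ a, eval P (pderiv a (X i)) * (y a - x a) = y i - x i := by
      rw [Finset.sum_eq_single i]
      · simp
      · intro b _ hb
        rw [pderiv_X_of_ne hb.symm, map_zero, zero_mul]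
      · simp
    refine ⟨?_, ?_, ?_, ?_, ?_, ?_, ?_, ?_⟩
    · rw [eval_X]; exact (h1 x).trans hx1
    · rw [eval_X]; exact (h1 y).trans hy1
    · rw [eval_X]; exact (h1 P).trans hP
    · rw [eval_X, eval_X]; exact (h1 (y - P)).trans hy
    · rw [eval_X, eval_X]; exact (h1 (x - P)).trans hx
    · intro a
      by_cases h : a = i
      · subst h; simp
      · rw [pderiv_X_of_ne (Ne.symm h), map_zero, norm_zero]; exact zero_le_one
    · rw [eval_X, eval_X]; exact h1 (y - x)
    · rw [hs, eval_X, eval_X, sub_self, norm_zero]; exact mul_nonneg hε hyx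
  have hA : ∀ g h, Q g → Q h → Q (g + h) := by
    rintro g h ⟨a1, a2, a3, a4, a5, a6, a7, a8⟩ ⟨b1, b2, b3, b4, b5, b6, b7, b8⟩
    refine ⟨?_, ?_, ?_, ?_, ?_, ?_, ?_, ?_⟩
    · rw [map_add]; exact nadd a1 b1
    · rw [map_add]; exact nadd a2 b2
    · rw [map_add]; exact nadd a3 b3
    · rw [map_add, map_add, add_sub_add_comm]; exact nadd a4 b4
    · rw [map_add, map_add, add_sub_add_comm]; exact nadd a5 b5
    · intro a; rw [map_add, map_add]; exact nadd (a6 a) (b6 a)
    · rw [map_add, map_add, add_sub_add_comm]; exact nadd a7 b7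
    · have e : eval y (g + h) - eval x (g + h) - ∑ a, eval P (pderiv a (g + h)) * (y a - x a) =
          (eval y g - eval x g - ∑ a, eval P (pderiv a g) * (y a - x a)) +
          (eval y h - eval x h - ∑ a, eval P (pderiv a h) * (y a - x a)) := by
        simp only [map_add, add_mul, Finset.sum_add_distrib]
        ring
      rw [e]; exact nadd a8 b8
  have hM : ∀ g h, Q g → Q h → Q (g * h) := by
    rintro g h ⟨a1, a2, a3, a4, a5, a6, a7, a8⟩ ⟨b1, b2, b3, b4, b5, b6, b7, b8⟩
    have m1 : ∀ {a b : L} {C D : ℝ}, ‖a‖ ≤ C → ‖b‖ ≤ D → 0 ≤ C → ‖a * b‖ ≤ C * D := by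
      intro a b C D ha hb hC
      rw [norm_mul]
      exact mul_le_mul ha hb (norm_nonneg _) hC
    refine ⟨?_, ?_, ?_, ?_, ?_, ?_, ?_, ?_⟩
    · rw [map_mul]; simpa using m1 a1 b1 zero_le_one
    · rw [map_mul]; simpa using m1 a2 b2 zero_le_one
    · rw [map_mul]; simpa using m1 a3 b3 zero_le_one
    · rw [map_mul, map_mul]
      have e : eval y g * eval y h - eval P g * eval P h =
          (eval y g - eval P g) * eval y h + eval P g * (eval y h - eval P h) := by ring
      rw [e]
      exact nadd (by simpa using m1 a4 b2 hε) (by simpa using m1 a3 b4 zero_le_one)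
    · rw [map_mul, map_mul]
      have e : eval x g * eval x h - eval P g * eval P h =
          (eval x g - eval P g) * eval x h + eval P g * (eval x h - eval P h) := by ring
      rw [e]
      exact nadd (by simpa using m1 a5 b1 hε) (by simpa using m1 a3 b5 zero_le_one)
    · intro a
      rw [Derivation.leibniz, map_add, smul_eq_mul, smul_eq_mul, map_mul, map_mul]
      exact nadd (by simpa using m1 a3 (b6 a) zero_le_one) (by simpa using m1 b3 (a6 a) zero_le_one)
    · rw [map_mul, map_mul]
      have e : eval y g * eval y h - eval x g * eval x h =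
          (eval y g - eval x g) * eval y h + eval x g * (eval y h - eval x h) := by ring
      rw [e]
      exact nadd (by simpa using m1 a7 b2 hyx) (by simpa using m1 a1 b7 zero_le_one)
    · have e : eval y (g * h) - eval x (g * h) - ∑ a, eval P (pderiv a (g * h)) * (y a - x a) =
          (eval y g - eval P g) * (eval y h - eval x h) + (eval y g - eval x g) * (eval x h - eval P h) +
          (eval P g * (eval y h - eval x h - ∑ a, eval P (pderiv a h) * (y a - x a)) +
          eval P h * (eval y g - eval x g - ∑ a, eval P (pderiv a g) * (y a - x a))) := by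
        have e1 : ∑ a, eval P (pderiv a (g * h)) * (y a - x a) =
            eval P g * ∑ a, eval P (pderiv a h) * (y a - x a) + eval P h * ∑ a, eval P (pderiv a g) * (y a - x a) := by
          rw [Finset.mul_sum, Finset.mul_sum, ← Finset.sum_add_distrib]
          refine Finset.sum_congr rfl fun a _ => ?_
          rw [Derivation.leibniz, map_add, smul_eq_mul, smul_eq_mul, map_mul, map_mul]
          ring
        rw [e1, map_mul, map_mul]
        ring
      rw [e]
      refine nadd (nadd (m1 a4 b7 hε) ?_) (nadd ?_ ?_)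
      · have := m1 a7 b5 hyx
        rwa [mul_comm ‖y - x‖ ε] at this
      · simpa using m1 a3 b8 zero_le_one
      · simpa using m1 b3 a8 zero_le_one
  have hsum : ∀ (ι : Type) (s : Finset ι) (g : ι → MvPolynomial (Fin n) L), (∀ i ∈ s, Q (g i)) → Q (∑ i ∈ s, g i) := by
    classical
    intro ι s g h
    induction s using Finset.induction_on with
    | empty => rw [Finset.sum_empty, ← C_0]; exact hC 0 (by simp)
    | insert a s ha ih =>
      rw [Finset.sum_insert ha]
      exact hA _ _ (h a (Finset.mem_insert_self _ _)) (ih fun i hi => h i (Finset.mem_insert_of_mem hi))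
  have hpow : ∀ g k, Q g → Q (g ^ k) := by
    intro g k hg
    induction k with
    | zero => rw [pow_zero, ← C_1]; exact hC 1 (by simp)
    | succ k ih => rw [pow_succ]; exact hM _ _ ih hg
  have hprod : ∀ (s : Finset (Fin n)) (g : Fin n → MvPolynomial (Fin n) L), (∀ i ∈ s, Q (g i)) → Q (∏ i ∈ s, g i) := by
    classical
    intro s g h
    induction s using Finset.induction_on with
    | empty => rw [Finset.prod_empty, ← C_1]; exact hC 1 (by simp)
    | insert a s ha ih =>
      rw [Finset.prod_insert ha]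
      exact hM _ _ (h a (Finset.mem_insert_self _ _)) (ih fun i hi => h i (Finset.mem_insert_of_mem hi))
  have hfQ : Q f := by
    rw [f.as_sum]
    refine hsum _ _ _ fun m _ => ?_
    rw [monomial_eq, Finsupp.prod]
    exact hM _ _ (hC _ (hf m)) (hprod _ _ fun i _ => hpow _ _ (hX i))
  exact ⟨hfQ.1, hfQ.2.2.2.2.2.1, hfQ.2.2.2.2.2.2.2⟩

end Pool.Agent.Q44.PE.Tay
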