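import Pool.Agent.Q44.PE.Top3
import Pool.Agent.Q44.PE.Inf2
import Pool.Agent.Q26.PE.OR
import Pool.Agent.Q123.PE.St
import Pool.Agent.Q123.PE.Wo
import Pool.Agent.Q129.PE.CO
import Pool.Agent.Q153.PE.IS
import Pool.Agent.Q182.PE.TY
import Pool.Agent.Q44.PE.Tay
import Pool.Agent.Q192.PE.WD
import Pool.Agent.Q210.PE.Ex
import Pool.Agent.Q210.PE.Li
import Pool.Agent.Q277.PE.CN
import Pool.Agent.Q285.PE.DE
import Pool.Agent.Q285.PE.PR
import Pool.Agent.Q285.PG.BA
import Pool.Agent.Q285.PG.MA
import Pool.Agent.Q96.PG.CL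
import Pool.Agent.Q96.PG.FI
import Pool.Agent.Q96.PG.IM
import Pool.Agent.Q96.PG.VA
import Pool.Agent.Q121.PG.CO

/-!
# Projects PG and PE: everything together
-/

set_option autoImplicit false

namespace Pool.Agent.Q44.PE

open Pool.Agent.Q44.PG

theorem all : E_top2 := by
  have van := Pool.Agent.Q96.PG.VA.main
  have im := Pool.Agent.Q96.PG.IM.im
  have im2 := Pool.Agent.Q96.PG.IM.im2 im
  have comp := Pool.Agent.Q121.PG.CO.main van im im2
  have fin := Pool.Agent.Q96.PG.FI.main
  have cl := Pool.Agent.Q96.PG.CL.cl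
  have clos := Pool.Agent.Q96.PG.CL.clos
  have ball := Pool.Agent.Q285.PG.BA.main im
  have mainP := Pool.Agent.Q285.PG.MA.main van comp fin cl ball clos
  have tay := Pool.Agent.Q44.PE.Tay.main
  have can := Pool.Agent.Q277.PE.CN.main
  have step := Pool.Agent.Q123.PE.step tay can
  have ex := Pool.Agent.Q210.PE.Ex.main can
  have lin := Pool.Agent.Q210.PE.Li.main
  have typ := Pool.Agent.Q182.PE.TY.main
  have per := Pool.Agent.Q285.PE.PR.main
  have del := Pool.Agent.Q285.PE.DE.main
  have words := Pool.Agent.Q123.PE.words can step ex lin typ per del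
  have orb := Pool.Agent.Q26.PE.OR.main
  have cmp := Pool.Agent.Q129.PE.CO.main
  have word := Pool.Agent.Q192.PE.WD.main cmp
  have iso := Pool.Agent.Q153.PE.IS.main
  exact top2 mainP words orb (inf2 word) iso comp

theorem all3 : E_top3 := top3 all Pool.Agent.Q153.PE.IS.main

end Pool.Agent.Q44.PE
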