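import Pool.Agent.Q44.PG.Stm

/-!
# Project PE: periodic points and local Zariski closures (definitions)

`X = V(I)` is a projective variety over a number field `K` and `φ s`, `s` in a finite set, are automorphisms of `X` with
inverses `ψ s`. They generate the group `Γ`; its elements are given by words in the `φ s`, `ψ s`.
-/

set_option autoImplicit false

namespace Pool.Agent.Q44.PE

open MvPolynomial Pool.Agent.Q44.SA Pool.Agent.Q44.PG

/-- canonical coordinates of a point: norm one, and the first coordinate of norm one is equal to one -/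
def Can {L : Type} [NormedField L] {n : ℕ} (x : Fin n → L) : Prop :=
  ‖x‖ = 1 ∧ ∃ i, x i = 1 ∧ ∀ j < i, ‖x j‖ < 1

/-- the points of `V(I)` over `L`, in canonical coordinates -/
def Xs {K L : Type} [Field K] [NormedField L] (σ : K →+* L) {n : ℕ} (I : Ideal (MvPolynomial (Fin n) K)) :
    Set (Fin n → L) := {x | Pt σ I x ∧ Can x}

/-- linear approximation on the balls of radius `ε`, by matrices with entries of norm at most one -/
def Lin {L : Type} [NormedField L] {n : ℕ} (ε : ℝ) (𝒳 : Set (Fin n → L)) (g : 𝒳 → 𝒳) : Prop :=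
  ∀ P : 𝒳, ∃ A : Matrix (Fin n) (Fin n) L, (∀ a b, ‖A a b‖ ≤ 1) ∧ ∀ x y : 𝒳,
    ‖(x : Fin n → L) - P‖ ≤ ε → ‖(y : Fin n → L) - P‖ ≤ ε →
    ‖((g y : Fin n → L) - g x) - A.mulVec ((y : Fin n → L) - x)‖ ≤ ε * ‖(y : Fin n → L) - x‖

/-- `u` is near the identity, and so are its differences -/
def NearId {L : Type} [NormedField L] {n : ℕ} (ε : ℝ) (𝒳 : Set (Fin n → L)) (u : 𝒳 → 𝒳) : Prop :=
  (∀ x : 𝒳, ‖(u x : Fin n → L) - x‖ ≤ ε) ∧ ∀ x y : 𝒳, ‖(y : Fin n → L) - x‖ ≤ ε →
    ‖((u y : Fin n → L) - u x) - ((y : Fin n → L) - x)‖ ≤ ε * ‖(y : Fin n → L) - x‖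

/-- the morphism of a letter -/
def Lt {K : Type} [Field K] {n : ℕ} {I : Ideal (MvPolynomial (Fin n) K)} {S : Type} (φ ψ : S → Mor I)
    (a : S × Bool) : Mor I := if a.2 then φ a.1 else ψ a.1

/-- `y` is an image of `x` under the word `w` -/
def Reach {K : Type} [Field K] {n : ℕ} {I : Ideal (MvPolynomial (Fin n) K)} {S : Type} (φ ψ : S → Mor I)
    {F : Type} [Field F] (σ : K →+* F) : List (S × Bool) → (Fin n → F) → (Fin n → F) → Prop
  | [], x, y => ∃ c : F, c ≠ 0 ∧ y = c • x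
  | a :: w, x, y => ∃ z, Reach φ ψ σ w x z ∧ (Lt φ ψ a).Rel σ z y

/-- There are finitely many types of words such that words of the same type have the same value at the points in `A`. -/
def Types {K : Type} [Field K] {n : ℕ} {I : Ideal (MvPolynomial (Fin n) K)} {S : Type} (φ ψ : S → Mor I)
    (A : Set (Fin n → K)) : Prop :=
  ∃ (T : Type) (_ : Finite T) (τ : List (S × Bool) → T), ∀ w w', τ w = τ w' → ∀ x ∈ A, ∀ y y',
    Reach φ ψ (RingHom.id K) w x y → Reach φ ψ (RingHom.id K) w' x y' → ∃ c : K, c ≠ 0 ∧ y' = c • y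

/-- the orbit of `x` is finite -/
def FinPt {K : Type} [Field K] {n : ℕ} {I : Ideal (MvPolynomial (Fin n) K)} {S : Type} (φ ψ : S → Mor I)
    {F : Type} [Field F] (σ : K →+* F) (x : Fin n → F) : Prop :=
  ∃ E : Finset (Fin n → F), ∀ w y, Reach φ ψ σ w x y → ∃ e ∈ E, ∃ c : F, c ≠ 0 ∧ y = c • e

end Pool.Agent.Q44.PE
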