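import Pool.Agent.Q44.PE.Def
import Pool.Agent.Q96.PG.IM
import Pool.Agent.Q121.PG.CO

/-!
# Project PE: statements

THEOREM. Let `X` be an irreducible projective variety over a number field `K`, and let `Γ` be an infinite, finitely
generated group of automorphisms of `X`. Assume that there are only finitely many irreducible closed subsets
`Y ≠ X` with a finite `Γ`-orbit and a dense infinite set of rational points. If Mazur's question has a positive answer for these `Y`
at a place `v` outside a finite set of places, then also for `X` at `v`.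

Idea. At a place of good reduction all the points of `X(K_v)` with a finite orbit are fixed by a subgroup of `Γ` of
finite index which does not depend on the point (for one automorphism: the periods are bounded). Reason: in the
canonical coordinates the automorphisms have linear approximations on all balls of radius `ε`, with an error
`ε ‖y - x‖`, and by compactness two words of the same type differ by a map `u` with `‖(u y - u x) - (y - x)‖ ≤ ε ‖y - x‖`; such a
map fixes its periodic points if `ε < |p|`. So the closure of the set of rational points with finite orbits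
outside of the sets `Y` has a finite orbit, and so it is a finite set of points if `Γ` is infinite. On the other hand every
`Z_x` is a union of the sets `Y`, or `X`, or an isolated rational point with a finite orbit.

Useful: `Pool/Agent/Q190/SA/Bas.lean` (`relH`, `relP`, `rel_pt`, `rel_inv`, `rel_unique`, `rel_smul`, `rel_exists`, `agree_at`,
`bind_at`, `eval2_smul`, `pt_smul`), `Pool/Agent/Q96/PG/VA.lean` (`van_prime`, `mem_van`, `line_iff`, `van_anti`),
`Pool/Agent/Q96/PG/IM.lean` (`im : P_im`), `Pool/Agent/Q121/PG/CO.lean` (minimal primes of `Van Y`), `Pool/Agent/Q96/PG/{FI,CL}.lean`.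
The norm on `Fin n → L` is the maximum norm.
-/

set_option autoImplicit false

namespace Pool.Agent.Q44.PE

open MvPolynomial Pool.Agent.Q44.SA Pool.Agent.Q44.PG

/-- **E_tay.** Proof: induction on `f` over the subring of integers (constants, sums, products with a variable), or monomial by
monomial. For a product: `f g (y) - f g (x) = f(y) (g(y) - g(x)) + (f(y) - f(x)) g(x)`, and `‖f(y) - f(P)‖ ≤ ε`, `‖g(x) - g(P)‖ ≤ ε`. -/
def E_tay : Prop := ∀ (L : Type) [NormedField L] [IsUltrametricDist L] (n : ℕ) (f : MvPolynomial (Fin n) L),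
  (∀ m, ‖coeff m f‖ ≤ 1) → ∀ ε : ℝ, 0 ≤ ε → ε ≤ 1 → ∀ P x y : Fin n → L, ‖P‖ ≤ 1 → ‖x - P‖ ≤ ε → ‖y - P‖ ≤ ε →
  ‖eval x f‖ ≤ 1 ∧ (∀ a, ‖eval P (pderiv a f)‖ ≤ 1) ∧
    ‖eval y f - eval x f - ∑ a, eval P (pderiv a f) * (y a - x a)‖ ≤ ε * ‖y - x‖

/-- **E_can.** Proof: let `i` be the first index with `‖x i‖ = ‖x‖`, and `c = (x i)⁻¹`. (2) `‖c‖ = 1`, and the first coordinate of
norm one has the same index in `x` and `c • x`. (3) The same, as `‖x j‖ = 1` iff `‖y j‖ = 1`. -/
def E_can : Prop := ∀ (L : Type) [NormedField L] [IsUltrametricDist L] (n : ℕ) (x : Fin n → L),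
  (x ≠ 0 → ∃ c : L, c ≠ 0 ∧ Can (c • x)) ∧ (∀ c : L, Can x → Can (c • x) → c = 1) ∧
    ∀ i, ‖x‖ = 1 → x i = 1 → (∀ j < i, ‖x j‖ < 1) → ∀ y : Fin n → L, ‖y - x‖ < 1 →
      (Can y → y i = 1) ∧ (y i = 1 → Can y)

/-- **E_step.** Proof: let `P' = g P`, `P' i = 1` with `i` as in the definition of `Can`. Choose `l` with `‖F l a (P)‖ = 1` for
some `a` (GoodM); then `‖F l i (P)‖ = 1`, since `P'` is a multiple of `F l (P)` of norm one. For `‖x - P‖ ≤ ε` also
`‖F l i (x)‖ = 1`, and `x'' = F l (x) / F l i (x)` is within `ε` of `P'`, `x'' i = 1`, so `x''` is canonical (E_can) and equal to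
`g x` (rel_unique and E_can). With `f a = F l a` (mapped to `L`) the difference of `f a (y) / f i (y)` and `f a (x) / f i (x)` is
`(f a (y) f i (x) - f a (x) f i (y)) / (f i (x) f i (y))`, so by E_tay up to `ε ‖y - x‖` it is the linear form
`(f i (P) ∑ ∂f a (P) (y - x) - f a (P) ∑ ∂f i (P) (y - x)) / f i (P) ^ 2`. -/
def E_step : Prop := ∀ (K L : Type) [Field K] [NormedField L] [IsUltrametricDist L] (σ : K →+* L) (n : ℕ)
  (I : Ideal (MvPolynomial (Fin n) K)) (φ : Mor I), GoodM φ σ → ∀ ε : ℝ, 0 < ε → ε < 1 →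
  ∀ g : Xs σ I → Xs σ I, (∀ x, φ.Rel σ x.1 (g x).1) → Lin ε (Xs σ I) g

/-- **E_ex.** Proof: rel_exists, rel_pt, and E_can (multiply the image by `c`). -/
def E_ex : Prop := ∀ (K L : Type) [Field K] [NormedField L] [IsUltrametricDist L] (σ : K →+* L) (n : ℕ)
  (I : Ideal (MvPolynomial (Fin n) K)), Homog I → ∀ φ : Mor I,
  ∃ g : Xs σ I → Xs σ I, ∀ x, φ.Rel σ x.1 (g x).1

/-- **E_lin.** Proof: if `A` belongs to `h` at `P` and `B` to `g` at `h P`, take `B * A`; note `‖h x - h P‖ ≤ ‖x - P‖ ≤ ε` and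
`‖h y - h x‖ ≤ ‖y - x‖`. -/
def E_lin : Prop := ∀ (L : Type) [NormedField L] [IsUltrametricDist L] (n : ℕ) (ε : ℝ), 0 < ε → ε < 1 →
  ∀ (𝒳 : Set (Fin n → L)) (g h : 𝒳 → 𝒳), Lin ε 𝒳 g → Lin ε 𝒳 h → Lin ε 𝒳 (fun x => g (h x))

/-- **E_typ.** Types of maps. Proof: by compactness there are a finite set of points `P 1, ..., P k` of `𝒳` such that every
point of `𝒳` is within `ε` of one of them, and a finite set of matrices with entries of norm at most one such that every
such matrix is within `ε` (entries) of one of them. The type of `g` with `Lin ε 𝒳 g` is the list of (an index of an element of the finite set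
within `ε` of `g (P i)`, the index of a matrix within `ε` of `A i (g)`), `A i (g)` a matrix for `g` at `P i`. Let `g`, `g'` have the same
type, `x`, `y` within `ε` of `P i`. Then `‖g x - g' x‖ ≤ ε`, and `(g y - g x) - (g' y - g' x)` is at most `ε ‖y - x‖`. Since
`x = h' (g' x)`, `h' (g x) - x = h' (g x) - h' (g' x)` is at most `‖g x - g' x‖ ≤ ε`. If `C` is the matrix of `h'` at
`g' x`, then `(h' (g y) - h' (g x)) - (y - x)` is within `ε ‖y - x‖` of `C ((g y - g x) - (g' y - g' x))`. -/
def E_typ : Prop := ∀ (L : Type) [NontriviallyNormedField L] [IsUltrametricDist L] [ProperSpace L] (n : ℕ) (ε : ℝ),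
  0 < ε → ε < 1 → ∀ 𝒳 : Set (Fin n → L), (∀ x ∈ 𝒳, ‖x‖ ≤ 1) →
  ∃ (T : Type) (_ : Finite T) (τ : (𝒳 → 𝒳) → T), ∀ g g' h' : 𝒳 → 𝒳, Lin ε 𝒳 g → Lin ε 𝒳 g' → Lin ε 𝒳 h' →
    (∀ x, h' (g' x) = x) → τ g = τ g' → NearId ε 𝒳 (fun x => h' (g x))

/-- **E_per.** Maps near the identity fix their periodic points. Proof: strong induction on `k`; for `k > 1` let `ℓ` be a prime
divisor and `g = u^[k / ℓ]`; `g` satisfies NearId too (telescoping sums). With `δ = g x - x`, `x j = g^[j] x`: `‖x j - x‖ ≤ ‖δ‖`,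
`‖(x (j + 1) - x j) - δ‖ ≤ ε ‖δ‖`, so `0 = x ℓ - x = ℓ δ + O(ε ‖δ‖)`, so `δ = 0` by `ε < ‖ℓ‖`. So `u^[k / ℓ] x = x`. -/
def E_per : Prop := ∀ (L : Type) [NormedField L] [IsUltrametricDist L] (n : ℕ) (ε : ℝ), 0 < ε → ε < 1 →
  (∀ ℓ : ℕ, ℓ.Prime → ε < ‖(ℓ : L)‖) → ∀ (𝒳 : Set (Fin n → L)) (u : 𝒳 → 𝒳), NearId ε 𝒳 u →
  ∀ (x : 𝒳) (k : ℕ), 0 < k → u^[k] x = x → u x = x

/-- **E_del.** Proof: `‖ℓ‖ ≤ 1` for all `ℓ`, and `‖ℓ‖ < 1` for at most one prime `ℓ` (Bézout: `a ℓ + b ℓ' = 1`). -/
def E_del : Prop := ∀ (L : Type) [NormedField L] [IsUltrametricDist L] [CharZero L],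
  ∃ δ : ℝ, 0 < δ ∧ ∀ ℓ : ℕ, ℓ.Prime → δ ≤ ‖(ℓ : L)‖

/-- **E_words.** Proof: let `g a : Xs σ I → Xs σ I` be the map for the letter `a` (E_ex, E_step); the maps of `(s, true)` and
`(s, false)` are inverse to each other (rel_inv, E_can: uniqueness of the canonical coordinates). For a word `w` let `G w` be the composition (the last
letter first), `Lin ε (G w)` by E_lin; the word `w⁻¹` (reversed, with the other letters) gives the inverse map. Let `τ w` be the type of
`G w` in E_typ, `ε` less than the `δ` of E_del. If `τ w = τ w'`, then `u = G w'⁻¹ ∘ G w` satisfies `NearId`. Let `x` be a rational point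
with `FinOrb φ ψ (Van {x})`: the set `O` of the canonical coordinates of the `σ ∘ y`, `y` rational with `Van {y}` in the finite set `𝒥`
of FinOrb, is finite (`Van {y} = Van {y'}` implies that `y`, `y'` are proportional) and stable under all `g a`
(`Im φ (Van {y}) = Van {y'}` for `φ.Rel y y'`, by P_im). `u` is injective and maps `O` to `O`, so `u^[k] x̂ = x̂` for some `k > 0`, so
`u x̂ = x̂` (E_per), so `G w x̂ = G w' x̂`; and if `Reach w x y`, then `G w x̂` is the canonical multiple of `σ ∘ y`. -/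
def E_words : Prop := ∀ (K : Type) [Field K] [CharZero K] (L : Type) [NontriviallyNormedField L] [IsUltrametricDist L]
  [ProperSpace L] (σ : K →+* L) (n : ℕ) (I : Ideal (MvPolynomial (Fin n) K)), Homog I →
  ∀ (S : Type) (φ ψ : S → Mor I), (∀ s, LeftInv (ψ s) (φ s)) → (∀ s, LeftInv (φ s) (ψ s)) →
  (∀ s, GoodM (φ s) σ) → (∀ s, GoodM (ψ s) σ) →
  Types φ ψ {x | Pt (RingHom.id K) I x ∧ FinOrb φ ψ (Van {x})}

/-- **E_orb.** Proof: `𝒥` is the set of the `Van (Y w)`, `Y w = {y | ∃ x ∈ A, Reach w x y}`, `w` a word. `Y w` depends only on the type of `w`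
(the set of the `y` with `Reach w x y` is closed under multiplication by nonzero scalars and not empty), so `𝒥` is finite; `Van (Y [])`
is `Van A`, and `Im (φ s) (Van (Y w)) = Van (Y ((s, true) :: w))` by P_im, the same for `ψ s`. -/
def E_orb : Prop := ∀ (K : Type) [Field K] [CharZero K] (n : ℕ) (I : Ideal (MvPolynomial (Fin n) K)), Homog I →
  ∀ (S : Type) (φ ψ : S → Mor I), (∀ s, LeftInv (ψ s) (φ s)) → (∀ s, LeftInv (φ s) (ψ s)) →
  ∀ A : Set (Fin n → K), (∀ x ∈ A, Pt (RingHom.id K) I x) → Types φ ψ A →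
  ∃ 𝒥 : Set (Ideal (MvPolynomial (Fin n) K)), 𝒥.Finite ∧ Van A ∈ 𝒥 ∧
    (∀ J ∈ 𝒥, ∃ Y : Set (Fin n → K), (∀ y ∈ Y, Pt (RingHom.id K) I y) ∧ J = Van Y) ∧
    ∀ s, ∀ J' ∈ 𝒥, Im (φ s) J' ∈ 𝒥 ∧ Im (ψ s) J' ∈ 𝒥

/-- **E_comp.** The composition of two morphisms, on an irreducible variety. Proof: the tuples `a ↦ bind₁ (φ.F l) (φ'.F l' a)` for all `(l, l')`,
of degree `φ.d l * φ'.d l'` (index them by `Fin (φ.p * φ'.p)`, `finProdFinEquiv`). base: `X k ^ N ∈ I + (φ'.F)`; substitute `φ.F l` (into) to get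
`(φ.F l k) ^ N ∈ I + (compositions)`, and use `base` of `φ`. agree: in the domain `D = K[X] / I` the vectors `u = φ.F l`, `v = φ.F m` are
proportional over the field of fractions, `u = t v`; so `φ'.F l' a (u) * φ'.F m' b (v) = t ^ (φ'.d l') φ'.F l' a (v) * φ'.F m' b (v)` is symmetric in
`a`, `b` by agree for `φ'` at `v` (if `v = 0` in `D` then both sides vanish). into: clear. -/
def E_comp : Prop := ∀ (K : Type) [Field K] (n : ℕ) (I : Ideal (MvPolynomial (Fin n) K)), I.IsPrime → Homog I →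
  ∀ φ φ' : Mor I, ∃ χ : Mor I, ∀ (F : Type) [Field F] (σ : K →+* F) (x y z : Fin n → F), Pt σ I x →
    φ.Rel σ x y → φ'.Rel σ y z → χ.Rel σ x z

/-- **E_word.** Every word is a morphism. Proof: E_comp, and the identity (`p = 1`, `d = 1`, `F 0 a = X a`) for the empty word. -/
def E_word : Prop := ∀ (K : Type) [Field K] (n : ℕ) (I : Ideal (MvPolynomial (Fin n) K)), I.IsPrime → Homog I →
  ∀ (S : Type) (φ ψ : S → Mor I) (w : List (S × Bool)), ∃ χ : Mor I, ∀ (F : Type) [Field F] (σ : K →+* F)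
    (x y : Fin n → F), Pt σ I x → Reach φ ψ σ w x y → χ.Rel σ x y

/-- **E_inf.** If the words have finitely many types on a dense set `A`, then the group is finite. Proof: for each type which
occurs choose a word `w'` of this type and a point `e` with `Reach w' x e`. Let `w` be a word of this type, `χ`, `χ'` the morphisms of `w`, `w'` (E_word).
At the points in `A` the vectors `χ.F l`, `χ'.F l'` are proportional, so `χ.F l a * χ'.F l' b - χ.F l b * χ'.F l' a ∈ Van A = I` (multiples of
the points in `A`: the forms are homogeneous of the same degree `χ.d l + χ'.d l'`). So `y` and `e` are proportional if `Reach w x y`. -/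
def E_inf : Prop := ∀ (K : Type) [Field K] [CharZero K] (n : ℕ) (I : Ideal (MvPolynomial (Fin n) K)), I.IsPrime → Homog I →
  ∀ (S : Type) (φ ψ : S → Mor I), (∀ s, LeftInv (ψ s) (φ s)) → (∀ s, LeftInv (φ s) (ψ s)) →
  ∀ A : Set (Fin n → K), (∀ x ∈ A, Pt (RingHom.id K) I x) → Van A = I → Types φ ψ A →
  ∀ (F : Type) [Field F] (σ : K →+* F) (x : Fin n → F), Pt σ I x → FinPt φ ψ σ x

/-- **E_iso.** Components of dimension zero are isolated points. Proof: `Clos σ I x` is the union of the `Van (Y U)`, `Y U` the set of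
the rational points in the neighbourhood `U`; as the ring is noetherian, it is equal to `Van (Y U)` for all sufficiently small `U`. A minimal prime
`𝔭` of `Van (Y U)` is `Van {y ∈ Y U | 𝔭 ≤ Van {y}}` (`min_mem` in `Pool/Agent/Q121/PG/CO.lean`), so for `𝔭 = Van {P}` some multiple of `P` is in `Y U`. So
`x i` is a multiple of `σ i ∘ P` for all `i`. (Here `0 < r`.) Let `f` be in all other minimal primes, not in `Van {P}`, homogeneous; then `f (P) ≠ 0`, so
`f (y) ≠ 0` for the rational points `y` near `x`. For `g ∈ Van {P}` the product `f g` is in all the minimal primes, so in the radical ideal `Clos σ I x`, so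
`g ∈ Clos σ I x`. (If `Van {P}` is the only minimal prime, the radical ideal `Clos σ I x` is equal to it.) -/
def E_iso : Prop := ∀ (K : Type) [Field K] [CharZero K] (n r : ℕ) (L : Fin r → Type) [∀ i, NontriviallyNormedField (L i)]
  [∀ i, IsUltrametricDist (L i)] (σ : ∀ i, K →+* L i) (I : Ideal (MvPolynomial (Fin n) K)), Homog I → 0 < r →
  ∀ x : ∀ i, Fin n → L i, (∀ i, x i ≠ 0) → (∀ 𝔭 ∈ (Clos σ I x).minimalPrimes, Homog 𝔭) →
  ∀ P : Fin n → K, Pt (RingHom.id K) I P → Van {P} ∈ (Clos σ I x).minimalPrimes →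
    Clos σ I x = Van {P} ∧ ∀ i, ∃ c : L i, c ≠ 0 ∧ x i = c • (σ i ∘ P)

end Pool.Agent.Q44.PE
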