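import Pool.Agent.Q44.PE.Stm
import Pool.Agent.Q96.PG.VA
import Pool.Agent.Q190.SA.GD
import Pool.Agent.Q44.SA.Fin

/-!
# Project PE: assembly
-/

set_option autoImplicit false

namespace Pool.Agent.Q44.PE

open MvPolynomial Pool.Agent.Q44.SA Pool.Agent.Q44.PG
open Pool.Agent.Q121.PG.CO (fin_min rad_inf)
open Pool.Agent.Q96.PG.VA (van_prime van_anti van_homog)

section
variable {K : Type} [Field K] {n : ℕ}

/-- a minimal prime of `Van Y` is the ideal of the set of the elements of `Y` on it -/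
theorem min_eq [CharZero K] {I : Ideal (MvPolynomial (Fin n) K)} (hI : Homog I)
    {Y : Set (Fin n → K)} (hY : ∀ y ∈ Y, Pt (RingHom.id K) I y) {𝔮 : Ideal (MvPolynomial (Fin n) K)}
    (hq : 𝔮 ∈ (Van Y).minimalPrimes) : 𝔮 = Van {y ∈ Y | 𝔮 ≤ Van {y}} := by
  obtain ⟨-, -, -, -, hv⟩ := Pool.Agent.Q96.PG.VA.main K n I hI Y hY
  set Z : Ideal (MvPolynomial (Fin n) K) → Set (Fin n → K) := fun 𝔯 => {y ∈ Y | 𝔯 ≤ Van {y}} with hZ
  have hle : (fin_min (Van Y)).toFinset.inf (fun 𝔯 => Van (Z 𝔯)) ≤ Van Y := by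
    intro f hf y hy t
    obtain ⟨hy1, hy2⟩ := hv y hy
    have := hy2
    obtain ⟨𝔯, hr, hry⟩ := Ideal.exists_minimalPrimes_le hy1
    have h2 := (Submodule.mem_finsetInf.1 hf) 𝔯 ((fin_min (Van Y)).mem_toFinset.2 hr)
    exact h2 y ⟨hy, hry⟩ t
  have hqp : 𝔮.IsPrime := hq.1.1
  obtain ⟨𝔯, hr, hr2⟩ := (hqp.inf_le').1 (hle.trans hq.1.2)
  have hr' : 𝔯 ∈ (Van Y).minimalPrimes := (fin_min (Van Y)).mem_toFinset.1 hr
  have hr3 : 𝔯 ≤ Van (Z 𝔯) := by
    intro f hf y hy t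
    exact hy.2 hf y rfl t
  have hr4 : 𝔮 ≤ 𝔯 := hq.2 hr'.1 (hr3.trans hr2)
  have e : 𝔯 = 𝔮 := le_antisymm (hr3.trans hr2) hr4
  subst e
  exact le_antisymm hr3 hr2

theorem van_empty : Van (∅ : Set (Fin n → K)) = ⊤ := by
  rw [Ideal.eq_top_iff_one]
  intro y hy
  exact absurd hy (Set.notMem_empty y)

/-- inclusion of ideals of points -/
theorem par_of_le {P a : Fin n → K} (ha : a ≠ 0) (h : (Van {P} : Ideal (MvPolynomial (Fin n) K)) ≤ Van {a}) :
    ∃ c : K, c ≠ 0 ∧ a = c • P := by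
  obtain ⟨j, hj⟩ := Function.ne_iff.mp ha
  simp only [Pi.zero_apply] at hj
  have key : ∀ i, a i * P j = a j * P i := by
    intro i
    have h1 : (X i * C (P j) - X j * C (P i) : MvPolynomial (Fin n) K) ∈ Van {P} := by
      rintro y rfl t
      simp only [map_sub, map_mul, eval_X, eval_C, Pi.smul_apply, smul_eq_mul]
      ring
    have h2 := h h1 a rfl 1
    simp only [one_smul, map_sub, map_mul, eval_X, eval_C] at h2
    exact sub_eq_zero.mp h2
  by_cases hP : P j = 0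
  · exfalso
    have h0 : P = 0 := by
      funext i
      have := key i
      rw [hP, mul_zero] at this
      exact (mul_eq_zero.mp this.symm).resolve_left hj
    have h1 : (X j : MvPolynomial (Fin n) K) ∈ Van {P} := by
      rintro y rfl t
      rw [h0, smul_zero, eval_X, Pi.zero_apply]
    have h2 := h h1 a rfl 1
    rw [one_smul, eval_X] at h2
    exact hj h2
  · refine ⟨a j / P j, div_ne_zero hj hP, ?_⟩
    funext i
    rw [Pi.smul_apply, smul_eq_mul, div_mul_eq_mul_div, eq_div_iff hP]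
    exact key i

theorem van_smul {P : Fin n → K} {c : K} (hc : c ≠ 0) :
    (Van {c • P} : Ideal (MvPolynomial (Fin n) K)) = Van {P} := by
  ext f
  constructor
  · rintro h y rfl t
    have := h _ rfl (t * c⁻¹)
    rwa [smul_smul, mul_assoc, inv_mul_cancel₀ hc, mul_one] at this
  · rintro h y rfl t
    rw [smul_smul]
    exact h _ rfl _

theorem van_eq_of_le {P a : Fin n → K} (ha : a ≠ 0) (h : (Van {P} : Ideal (MvPolynomial (Fin n) K)) ≤ Van {a}) :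
    (Van {P} : Ideal (MvPolynomial (Fin n) K)) = Van {a} := by
  obtain ⟨c, hc, rfl⟩ := par_of_le ha h
  exact (van_smul hc).symm

/-- the point of a periodic subset which is a point -/
theorem pt_of_per {I : Ideal (MvPolynomial (Fin n) K)} {S : Type} {φ ψ : S → Mor I}
    {P : Fin n → K} (h : Per φ ψ (Van {P})) : Pt (RingHom.id K) I P := by
  obtain ⟨h1, h2, h3, h4, h5⟩ := h
  have hne : (Pts I (Van {P}) : Set (Fin n → K)).Nonempty := by
    rw [Set.nonempty_iff_ne_empty]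
    intro h0
    rw [h0, van_empty] at h4
    exact h1.ne_top h4
  obtain ⟨y, hy, hy'⟩ := hne
  have hle : (Van {P} : Ideal (MvPolynomial (Fin n) K)) ≤ Van {y} := by
    intro f hf
    rw [h4] at hf
    rintro z rfl t
    exact hf z ⟨hy, hy'⟩ t
  obtain ⟨c, hc, e⟩ := par_of_le hy.1 hle
  refine ⟨?_, fun f hf => ?_⟩
  · rintro rfl
    rw [smul_zero] at e
    exact hy.1 e
  · have := h2 hf P rfl 1
    rw [one_smul] at this
    rw [eval₂_id]
    exact this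

end

section
variable {K : Type} [Field K] {n : ℕ} {r : ℕ} {L : Fin r → Type} [∀ i, NontriviallyNormedField (L i)]
  (σ : ∀ i, K →+* L i)

theorem le_clos {I : Ideal (MvPolynomial (Fin n) K)} (hI : Homog I) (x : ∀ i, Fin n → L i) : I ≤ Clos σ I x := by
  intro f hf
  refine ⟨fun _ => Set.univ, fun _ => Filter.univ_mem, fun y hy _ t => ?_⟩
  exact Pool.Agent.Q44.SA.pt_smul hI hy hf t

theorem clos_mono {I J : Ideal (MvPolynomial (Fin n) K)} (h : I ≤ J) (x : ∀ i, Fin n → L i) :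
    Clos σ I x ≤ Clos σ J x := by
  rintro f ⟨U, hU, hf⟩
  exact ⟨U, hU, fun y hy h' t => hf y ⟨hy.1, fun g hg => hy.2 g (h hg)⟩ h' t⟩

/-- the closure at a rational point contains the point -/
theorem clos_le {I : Ideal (MvPolynomial (Fin n) K)} {x : ∀ i, Fin n → L i} {P : Fin n → K}
    (hP : Pt (RingHom.id K) I P) (h : ∀ i, ∃ c : L i, c ≠ 0 ∧ x i = c • (σ i ∘ P)) : Clos σ I x ≤ Van {P} := by
  rintro f ⟨U, hU, hf⟩ y rfl t
  refine hf y hP (fun i => ?_) t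
  obtain ⟨c, hc, e⟩ := h i
  refine ⟨c, hc, ?_⟩
  rw [← e]
  exact mem_of_mem_nhds (hU i)

end

/-- **The main theorem, first form.** -/
def E_top : Prop := ∀ (K : Type) [Field K] [NumberField K] (n : ℕ) (I : Ideal (MvPolynomial (Fin n) K)), I.IsPrime →
  Homog I → ∀ (S : Type) [Finite S] (φ ψ : S → Mor I), (∀ s, LeftInv (ψ s) (φ s)) → (∀ s, LeftInv (φ s) (ψ s)) →
  ∃ N : ℕ, N ≠ 0 ∧ ∀ (r : ℕ) (L : Fin r → Type) [∀ i, NontriviallyNormedField (L i)] [∀ i, IsUltrametricDist (L i)]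
    [∀ i, CompleteSpace (L i)] (σ : ∀ i, K →+* L i), (∀ i, DenseRange (σ i)) → (∀ i, ‖(N : L i)‖ = 1) →
    (∀ x : ∀ i, Fin n → L i, (∀ i, x i ≠ 0) →
      FinOrb φ ψ (Clos σ I x) ∧ (∀ 𝔭 ∈ (Clos σ I x).minimalPrimes, Per φ ψ 𝔭) ∧
      Clos σ I x = sInf (Clos σ I x).minimalPrimes) ∧
    (∀ P, Pt (RingHom.id K) I P → (∀ 𝔭, Per φ ψ 𝔭 → 𝔭 ≤ Van {P} → 𝔭 = I) → Clos σ I (fun i => σ i ∘ P) = I) ∧
    ((∃ (F : Type) (_ : Field F) (τ : K →+* F) (x : Fin n → F), Pt τ I x ∧ ¬ FinPt φ ψ τ x) →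
      {𝔭 | Per φ ψ 𝔭 ∧ 𝔭 ≠ I ∧ ∀ P, 𝔭 ≠ Van {P}}.Finite →
      (∀ 𝔭, Per φ ψ 𝔭 → 𝔭 ≠ I → (∀ P, 𝔭 ≠ Van {P}) →
        {J | ∃ x : ∀ i, Fin n → L i, (∀ i, x i ≠ 0) ∧ J = Clos σ 𝔭 x}.Finite) →
      {J | ∃ x : ∀ i, Fin n → L i, (∀ i, x i ≠ 0) ∧ J = Clos σ I x}.Finite)

theorem norm_prod {L : Type} [NontriviallyNormedField L] [IsUltrametricDist L] {S : Type} (s : Finset S) (N : S → ℕ)
    (h : ‖((∏ i ∈ s, N i : ℕ) : L)‖ = 1) : ∀ i ∈ s, ‖(N i : L)‖ = 1 := by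
  classical
  induction s using Finset.induction_on with
  | empty => simp
  | insert a s ha ih =>
    rw [Finset.prod_insert ha] at h
    have h1 := norm_one_of_mul h
    intro i hi
    rcases Finset.mem_insert.mp hi with rfl | hi
    · exact h1.1
    · exact ih h1.2 i hi

theorem top (hmain : P_main) (hw : E_words) (ho : E_orb) (hin : E_inf) (his : E_iso) (hcomp : P_comp) : E_top := by
  classical
  intro K _ _ n I hI hom S _ φ ψ h1 h2
  have := Fintype.ofFinite S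
  choose N1 hN1 hg1 using fun s => Pool.Agent.Q190.SA.main_gd K n I (φ s)
  choose N2 hN2 hg2 using fun s => Pool.Agent.Q190.SA.main_gd K n I (ψ s)
  refine ⟨∏ s, (N1 s * N2 s), Finset.prod_ne_zero_iff.mpr fun s _ => mul_ne_zero (hN1 s) (hN2 s), ?_⟩
  intro r L _ _ _ σ hσ hN
  have hprop : ∀ i, ProperSpace (L i) := fun i => Pool.Agent.W279.Tri.properSpace_of_denseRange (σ i) (hσ i)
  have hN' : ∀ i s, ‖((N1 s * N2 s : ℕ) : L i)‖ = 1 := fun i s =>
    norm_prod Finset.univ (fun s => N1 s * N2 s) (hN i) s (Finset.mem_univ s)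
  have hG1 : ∀ s i, GoodM (φ s) (σ i) := fun s i => hg1 s (L i) (σ i) (norm_one_of_mul (hN' i s)).1
  have hG2 : ∀ s i, GoodM (ψ s) (σ i) := fun s i => hg2 s (L i) (σ i) (norm_one_of_mul (hN' i s)).2
  have hM := hmain K n I hom S φ ψ h1 h2 r L σ hG1 hG2
  refine ⟨hM, ?_, ?_⟩
  · intro P hP hper
    refine le_antisymm ?_ (le_clos σ hom _)
    have hne : ∀ i, (σ i ∘ P : Fin n → L i) ≠ 0 := fun i => comp_ne (σ i) hP.1
    have hle : Clos σ I (fun i => σ i ∘ P) ≤ Van {P} :=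
      clos_le σ hP fun i => ⟨1, one_ne_zero, (one_smul _ _).symm⟩
    have := van_prime P
    obtain ⟨𝔭, hp, hp'⟩ := Ideal.exists_minimalPrimes_le hle
    have h3 := hper 𝔭 ((hM _ hne).2.1 𝔭 hp) hp'
    exact hp.1.2.trans (le_of_eq h3)
  · rintro ⟨F, hF, τ, x₀, hx₀, hinf⟩ hfin hY
    rcases Nat.eq_zero_or_pos r with rfl | hr
    · refine Set.Subsingleton.finite ?_
      rintro J ⟨x, -, rfl⟩ J' ⟨x', -, rfl⟩
      rw [Subsingleton.elim x x']
    set 𝒴 : Set (Ideal (MvPolynomial (Fin n) K)) := {𝔭 | Per φ ψ 𝔭 ∧ 𝔭 ≠ I ∧ ∀ P, 𝔭 ≠ Van {P}} with h𝒴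
    set A : Set (Fin n → K) := {x | (Pt (RingHom.id K) I x ∧ FinOrb φ ψ (Van {x})) ∧ ∀ 𝔭 ∈ 𝒴, ¬ 𝔭 ≤ Van {x}} with hA
    have hApt : ∀ x ∈ A, Pt (RingHom.id K) I x := fun x hx => hx.1.1
    have hT : Types φ ψ A := by
      obtain ⟨T, hT, t, h⟩ := hw K (L ⟨0, hr⟩) (σ ⟨0, hr⟩) n I hom S φ ψ h1 h2 (fun s => hG1 s _) (fun s => hG2 s _)
      exact ⟨T, hT, t, fun w w' hww x hx => h w w' hww x hx.1⟩
    obtain ⟨𝒥, hJf, hAJ, hJV, hJs⟩ := ho K n I hom S φ ψ h1 h2 A hApt hT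
    have hper := hcomp K n I hom S φ ψ h1 h2 𝒥 hJf hJV hJs (Van A) hAJ
    have hIA : I ≤ Van A := (Pool.Agent.Q96.PG.VA.main K n I hom A hApt).2.2.1
    have hpoint : ∀ 𝔮 ∈ (Van A).minimalPrimes, ∃ P, 𝔮 = Van {P} := by
      intro 𝔮 hq
      by_contra hcon
      push Not at hcon
      by_cases hqI : 𝔮 = I
      · have hAI : Van A = I := le_antisymm (by rw [← hqI]; exact hq.1.2) hIA
        exact hinf (hin K n I hI hom S φ ψ h1 h2 A hApt hAI hT F τ x₀ hx₀)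
      · have hqY : 𝔮 ∈ 𝒴 := ⟨hper 𝔮 hq, hqI, hcon⟩
        have h3 := min_eq hom hApt hq
        have h4 : {y ∈ A | 𝔮 ≤ Van {y}} = ∅ := by
          rw [Set.eq_empty_iff_forall_notMem]
          rintro y ⟨hy, hy'⟩
          exact hy.2 𝔮 hqY hy'
        rw [h4, van_empty] at h3
        exact hq.1.1.ne_top h3
    have hAfin : {J | ∃ P ∈ A, J = Van {P}}.Finite := by
      refine (fin_min (Van A)).subset ?_
      rintro J ⟨P, hP, rfl⟩
      have hle : Van A ≤ Van {P} := van_anti (Set.singleton_subset_iff.2 hP)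
      have := van_prime P
      obtain ⟨𝔮, hq, hq'⟩ := Ideal.exists_minimalPrimes_le hle
      obtain ⟨Q, rfl⟩ := hpoint 𝔮 hq
      rw [← van_eq_of_le (hApt P hP).1 hq']
      exact hq
    have hbig : ((sInf '' (𝒫 (insert I 𝒴))) ∪ {J | ∃ P ∈ A, J = Van {P}} ∪
        ⋃ 𝔭 ∈ 𝒴, {J | ∃ x : ∀ i, Fin n → L i, (∀ i, x i ≠ 0) ∧ J = Clos σ 𝔭 x}).Finite := by
      refine (((hfin.insert I).powerset.image _).union hAfin).union ?_
      exact hfin.biUnion fun 𝔭 hp => hY 𝔭 hp.1 hp.2.1 hp.2.2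
    refine hbig.subset ?_
    rintro J ⟨x, hx, rfl⟩
    obtain ⟨-, hmin, hinfx⟩ := hM x hx
    by_cases hall : ∀ 𝔭 ∈ (Clos σ I x).minimalPrimes, 𝔭 ∈ insert I 𝒴
    · left; left
      exact ⟨(Clos σ I x).minimalPrimes, hall, hinfx.symm⟩
    · push Not at hall
      obtain ⟨𝔭, hp, hpn⟩ := hall
      have hpP := hmin 𝔭 hp
      have hP : ∃ P, 𝔭 = Van {P} := by
        by_contra hcon
        push Not at hcon
        apply hpn
        by_cases hpI : 𝔭 = I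
        · exact Or.inl hpI
        · exact Or.inr ⟨hpP, hpI, hcon⟩
      obtain ⟨P, rfl⟩ := hP
      have hPt := pt_of_per hpP
      obtain ⟨hcl, hxP⟩ := his K n r L σ I hom hr x hx (fun 𝔮 hq => (hmin 𝔮 hq).2.2.1) P hPt hp
      by_cases hPA : P ∈ A
      · left; right
        exact ⟨P, hPA, hcl⟩
      · right
        have h5 : ∃ 𝔮 ∈ 𝒴, 𝔮 ≤ Van {P} := by
          by_contra hcon
          push Not at hcon
          exact hPA ⟨⟨hPt, hpP.2.2.2.2⟩, hcon⟩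
        obtain ⟨𝔮, hqY, hqP⟩ := h5
        refine Set.mem_biUnion hqY ⟨x, hx, ?_⟩
        rw [hcl]
        apply le_antisymm
        · rw [← hcl]
          exact clos_mono σ hqY.1.2.1 x
        · refine clos_le σ ⟨hPt.1, fun f hf => ?_⟩ hxP
          have := hqP hf P rfl 1
          rw [one_smul] at this
          rw [eval₂_id]
          exact this

end Pool.Agent.Q44.PE
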