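import Pool.Agent.Q44.PE.Top
import Pool.Agent.Q44.PE.Stm2

/-!
# Project PE: assembly, stronger form
-/

set_option autoImplicit false

namespace Pool.Agent.Q44.PE

open MvPolynomial Pool.Agent.Q44.SA Pool.Agent.Q44.PG
open Pool.Agent.Q121.PG.CO (fin_min rad_inf)
open Pool.Agent.Q96.PG.VA (van_prime van_anti van_homog)

/-- The closed subset with the prime ideal `𝔭` is not a point. -/
def NotPoint {K : Type} [Field K] {n : ℕ} (𝔭 : Ideal (MvPolynomial (Fin n) K)) : Prop :=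
  ∀ P : Fin n → K, 𝔭 ≠ Van {P}

/-- All points of the closed subset with the ideal `J`, over all extension fields, have finite orbits. -/
def AllFin {K : Type} [Field K] {n : ℕ} {I : Ideal (MvPolynomial (Fin n) K)} {S : Type} (φ ψ : S → Mor I)
    (J : Ideal (MvPolynomial (Fin n) K)) : Prop :=
  ∀ (F : Type) [Field F] (τ : K →+* F) (y : Fin n → F), Pt τ J y → FinPt φ ψ τ y

/-- **The main theorem.** -/
def E_top2 : Prop := ∀ (K : Type) [Field K] [NumberField K] (n : ℕ) (I : Ideal (MvPolynomial (Fin n) K)), I.IsPrime →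
  Homog I → ∀ (S : Type) [Finite S] (φ ψ : S → Mor I), (∀ s, LeftInv (ψ s) (φ s)) → (∀ s, LeftInv (φ s) (ψ s)) →
  ∃ N : ℕ, N ≠ 0 ∧ ∀ (r : ℕ) (L : Fin r → Type) [∀ i, NontriviallyNormedField (L i)] [∀ i, IsUltrametricDist (L i)]
    [∀ i, CompleteSpace (L i)] (σ : ∀ i, K →+* L i), (∀ i, DenseRange (σ i)) → (∀ i, ‖(N : L i)‖ = 1) →
    (∀ x : ∀ i, Fin n → L i, (∀ i, x i ≠ 0) →
      FinOrb φ ψ (Clos σ I x) ∧ (∀ 𝔭 ∈ (Clos σ I x).minimalPrimes, Per φ ψ 𝔭) ∧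
      Clos σ I x = sInf (Clos σ I x).minimalPrimes) ∧
    (∀ P, Pt (RingHom.id K) I P → (∀ 𝔭, Per φ ψ 𝔭 → 𝔭 ≤ Van {P} → 𝔭 = I) → Clos σ I (fun i => σ i ∘ P) = I) ∧
    ({𝔭 | Per φ ψ 𝔭 ∧ NotPoint 𝔭}.Finite →
      (∀ 𝔭, Per φ ψ 𝔭 → NotPoint 𝔭 → AllFin φ ψ 𝔭 →
        {J | ∃ x : ∀ i, Fin n → L i, (∀ i, x i ≠ 0) ∧ J = Clos σ 𝔭 x}.Finite) →
      {J | ∃ x : ∀ i, Fin n → L i, (∀ i, x i ≠ 0) ∧ J = Clos σ I x}.Finite)

theorem top2 (hmain : P_main) (hw : E_words) (ho : E_orb) (hin : E_inf2) (his : E_iso) (hcomp : P_comp) : E_top2 := by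
  classical
  intro K _ _ n I hI hom S _ φ ψ h1 h2
  have := Fintype.ofFinite S
  choose N1 hN1 hg1 using fun s => Pool.Agent.Q190.SA.main_gd K n I (φ s)
  choose N2 hN2 hg2 using fun s => Pool.Agent.Q190.SA.main_gd K n I (ψ s)
  refine ⟨∏ s, (N1 s * N2 s), Finset.prod_ne_zero_iff.mpr fun s _ => mul_ne_zero (hN1 s) (hN2 s), ?_⟩
  intro r L _ _ _ σ hσ hN
  have hprop : ∀ i, ProperSpace (L i) := fun i => Pool.Agent.W279.Tri.properSpace_of_denseRange (σ i) (hσ i)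
  have hN' : ∀ i s, ‖((N1 s * N2 s : ℕ) : L i)‖ = 1 := fun i s =>
    norm_prod Finset.univ (fun s => N1 s * N2 s) (hN i) s (Finset.mem_univ s)
  have hG1 : ∀ s i, GoodM (φ s) (σ i) := fun s i => hg1 s (L i) (σ i) (norm_one_of_mul (hN' i s)).1
  have hG2 : ∀ s i, GoodM (ψ s) (σ i) := fun s i => hg2 s (L i) (σ i) (norm_one_of_mul (hN' i s)).2
  have hM := hmain K n I hom S φ ψ h1 h2 r L σ hG1 hG2
  refine ⟨hM, ?_, ?_⟩
  · intro P hP hper
    refine le_antisymm ?_ (le_clos σ hom _)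
    have hne : ∀ i, (σ i ∘ P : Fin n → L i) ≠ 0 := fun i => comp_ne (σ i) hP.1
    have hle : Clos σ I (fun i => σ i ∘ P) ≤ Van {P} :=
      clos_le σ hP fun i => ⟨1, one_ne_zero, (one_smul _ _).symm⟩
    have := van_prime P
    obtain ⟨𝔭, hp, hp'⟩ := Ideal.exists_minimalPrimes_le hle
    have h3 := hper 𝔭 ((hM _ hne).2.1 𝔭 hp) hp'
    exact hp.1.2.trans (le_of_eq h3)
  · intro hfin hY
    rcases Nat.eq_zero_or_pos r with rfl | hr
    · refine Set.Subsingleton.finite ?_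
      rintro J ⟨x, -, rfl⟩ J' ⟨x', -, rfl⟩
      rw [Subsingleton.elim x x']
    set 𝒴 : Set (Ideal (MvPolynomial (Fin n) K)) := {𝔭 | Per φ ψ 𝔭 ∧ NotPoint 𝔭} with h𝒴
    set 𝒴₀ : Set (Ideal (MvPolynomial (Fin n) K)) := {𝔭 | 𝔭 ∈ 𝒴 ∧ AllFin φ ψ 𝔭} with h𝒴₀
    set A : Set (Fin n → K) := {x | (Pt (RingHom.id K) I x ∧ FinOrb φ ψ (Van {x})) ∧ ∀ 𝔭 ∈ 𝒴₀, ¬ 𝔭 ≤ Van {x}} with hA
    have hApt : ∀ x ∈ A, Pt (RingHom.id K) I x := fun x hx => hx.1.1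
    have hT : Types φ ψ A := by
      obtain ⟨T, hT, t, h⟩ := hw K (L ⟨0, hr⟩) (σ ⟨0, hr⟩) n I hom S φ ψ h1 h2 (fun s => hG1 s _) (fun s => hG2 s _)
      exact ⟨T, hT, t, fun w w' hww x hx => h w w' hww x hx.1⟩
    obtain ⟨𝒥, hJf, hAJ, hJV, hJs⟩ := ho K n I hom S φ ψ h1 h2 A hApt hT
    have hper := hcomp K n I hom S φ ψ h1 h2 𝒥 hJf hJV hJs (Van A) hAJ
    have hpoint : ∀ 𝔮 ∈ (Van A).minimalPrimes, ∃ P, 𝔮 = Van {P} := by
      intro 𝔮 hq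
      by_contra hcon
      push Not at hcon
      have h3 := min_eq hom hApt hq
      have hqY : 𝔮 ∈ 𝒴₀ := by
        refine ⟨⟨hper 𝔮 hq, hcon⟩, ?_⟩
        intro F _ τ y hy
        obtain ⟨T, hT', t, h⟩ := hT
        refine hin K n I hI hom S φ ψ h1 h2 {y ∈ A | 𝔮 ≤ Van {y}} (fun x hx => hApt x hx.1)
          ⟨T, hT', t, fun w w' hww x hx => h w w' hww x hx.1⟩ F τ y ?_
        rw [← h3]
        exact hy
      have h4 : {y ∈ A | 𝔮 ≤ Van {y}} = ∅ := by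
        rw [Set.eq_empty_iff_forall_notMem]
        rintro y ⟨hy, hy'⟩
        exact hy.2 𝔮 hqY hy'
      rw [h4, van_empty] at h3
      exact hq.1.1.ne_top h3
    have hAfin : {J | ∃ P ∈ A, J = Van {P}}.Finite := by
      refine (fin_min (Van A)).subset ?_
      rintro J ⟨P, hP, rfl⟩
      have hle : Van A ≤ Van {P} := van_anti (Set.singleton_subset_iff.2 hP)
      have := van_prime P
      obtain ⟨𝔮, hq, hq'⟩ := Ideal.exists_minimalPrimes_le hle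
      obtain ⟨Q, rfl⟩ := hpoint 𝔮 hq
      rw [← van_eq_of_le (hApt P hP).1 hq']
      exact hq
    have hbig : ((sInf '' (𝒫 𝒴)) ∪ {J | ∃ P ∈ A, J = Van {P}} ∪
        ⋃ 𝔭 ∈ 𝒴₀, {J | ∃ x : ∀ i, Fin n → L i, (∀ i, x i ≠ 0) ∧ J = Clos σ 𝔭 x}).Finite := by
      refine ((hfin.powerset.image _).union hAfin).union ?_
      exact (hfin.subset fun 𝔭 hp => hp.1).biUnion fun 𝔭 hp => hY 𝔭 hp.1.1 hp.1.2 hp.2
    refine hbig.subset ?_
    rintro J ⟨x, hx, rfl⟩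
    obtain ⟨-, hmin, hinfx⟩ := hM x hx
    by_cases hall : ∀ 𝔭 ∈ (Clos σ I x).minimalPrimes, 𝔭 ∈ 𝒴
    · left; left
      exact ⟨(Clos σ I x).minimalPrimes, hall, hinfx.symm⟩
    · push Not at hall
      obtain ⟨𝔭, hp, hpn⟩ := hall
      have hpP := hmin 𝔭 hp
      have hP : ∃ P, 𝔭 = Van {P} := by
        by_contra hcon
        push Not at hcon
        exact hpn ⟨hpP, hcon⟩
      obtain ⟨P, rfl⟩ := hP
      have hPt := pt_of_per hpP
      obtain ⟨hcl, hxP⟩ := his K n r L σ I hom hr x hx (fun 𝔮 hq => (hmin 𝔮 hq).2.2.1) P hPt hp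
      by_cases hPA : P ∈ A
      · left; right
        exact ⟨P, hPA, hcl⟩
      · right
        have h5 : ∃ 𝔮 ∈ 𝒴₀, 𝔮 ≤ Van {P} := by
          by_contra hcon
          push Not at hcon
          exact hPA ⟨⟨hPt, hpP.2.2.2.2⟩, hcon⟩
        obtain ⟨𝔮, hqY, hqP⟩ := h5
        refine Set.mem_biUnion hqY ⟨x, hx, ?_⟩
        rw [hcl]
        apply le_antisymm
        · rw [← hcl]
          exact clos_mono σ hqY.1.1.2.1 x
        · refine clos_le σ ⟨hPt.1, fun f hf => ?_⟩ hxP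
          have := hqP hf P rfl 1
          rw [one_smul] at this
          rw [eval₂_id]
          exact this

end Pool.Agent.Q44.PE
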