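import Pool.Agent.Q44.PE.Top2

/-!
# Project PE: assembly, final form
-/

set_option autoImplicit false

namespace Pool.Agent.Q44.PE

open MvPolynomial Pool.Agent.Q44.SA Pool.Agent.Q44.PG
open Pool.Agent.Q121.PG.CO (fin_min rad_inf)
open Pool.Agent.Q96.PG.VA (van_prime van_anti van_homog ev ev_eval ev_zero_iff)

/-- The point `x` is on all the irreducible components of the local Zariski closure at `x`. -/
theorem on_comp {K : Type} [Field K] [CharZero K] {n : ℕ} {r : ℕ} {L : Fin r → Type}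
    [∀ i, NontriviallyNormedField (L i)] (σ : ∀ i, K →+* L i) {I : Ideal (MvPolynomial (Fin n) K)}
    {x : ∀ i, Fin n → L i} (hinf : Clos σ I x = sInf (Clos σ I x).minimalPrimes)
    {𝔭 : Ideal (MvPolynomial (Fin n) K)} (hp : 𝔭 ∈ (Clos σ I x).minimalPrimes) (hph : Homog 𝔭) (i : Fin r) :
    ∀ f ∈ 𝔭, eval₂ (σ i) (x i) f = 0 := by
  classical
  intro f hf
  by_contra hne
  -- a homogeneous element which does not vanish at the point
  obtain ⟨d, hd⟩ : ∃ d, eval₂ (σ i) (x i) (homogeneousComponent d f) ≠ 0 := by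
    by_contra hcon
    push Not at hcon
    apply hne
    rw [← sum_homogeneousComponent f, ← coe_eval₂Hom, map_sum]
    exact Finset.sum_eq_zero fun d _ => by rw [coe_eval₂Hom]; exact hcon d
  have hg𝔭 : homogeneousComponent d f ∈ 𝔭 := hph f hf d
  set h := homogeneousComponent d f with hh
  have hhom : h.IsHomogeneous d := homogeneousComponent_isHomogeneous d f
  -- an element of the other minimal primes
  obtain ⟨g, hg, hgn⟩ : ∃ g, (∀ 𝔮 ∈ (Clos σ I x).minimalPrimes, 𝔮 ≠ 𝔭 → g ∈ 𝔮) ∧ g ∉ 𝔭 := by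
    by_contra hcon
    push Not at hcon
    have hpp : 𝔭.IsPrime := hp.1.1
    have hle : (((fin_min (Clos σ I x)).toFinset.erase 𝔭).inf id) ≤ 𝔭 := by
      intro g hg
      refine hcon g fun 𝔮 hq hqp => ?_
      exact (Submodule.mem_finsetInf.1 hg) 𝔮 (Finset.mem_erase.2 ⟨hqp, (fin_min _).mem_toFinset.2 hq⟩)
    obtain ⟨𝔮, hq, hq2⟩ := (hpp.inf_le').1 hle
    obtain ⟨hqp, hq3⟩ := Finset.mem_erase.1 hq
    have hq4 := (fin_min _).mem_toFinset.1 hq3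
    exact hqp (le_antisymm hq2 (hp.2 hq4.1 hq2))
  have hprod : h * g ∈ Clos σ I x := by
    rw [hinf, Submodule.mem_sInf]
    intro 𝔮 hq
    by_cases hqp : 𝔮 = 𝔭
    · rw [hqp]
      exact Ideal.mul_mem_right _ _ hg𝔭
    · exact Ideal.mul_mem_left _ _ (hg 𝔮 hq hqp)
  apply hgn
  have hgC : g ∈ Clos σ I x := by
    obtain ⟨U, hU, hUf⟩ := hprod
    have hcont : Continuous fun v : Fin n → L i => eval₂ (σ i) v h := by
      have e : (fun v : Fin n → L i => eval₂ (σ i) v h) = fun v => eval v (map (σ i) h) := by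
        funext v
        rw [MvPolynomial.eval_map]
      rw [e]
      exact MvPolynomial.continuous_eval _
    have hopen : {v : Fin n → L i | eval₂ (σ i) v h ≠ 0} ∈ nhds (x i) :=
      (isOpen_ne_fun hcont continuous_const).mem_nhds hd
    refine ⟨fun j => U j ∩ {v | ∀ e : j = i, eval₂ (σ i) (e ▸ v) h ≠ 0}, fun j => ?_, ?_⟩
    · refine Filter.inter_mem (hU j) ?_
      by_cases e : j = i
      · subst e
        refine Filter.mem_of_superset hopen ?_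
        intro v hv e
        exact hv
      · refine Filter.mem_of_superset Filter.univ_mem ?_
        intro v _ e'
        exact absurd e' e
    · intro y hy hyU
      have h1 := hUf y hy fun j => (hyU j).imp fun _ hc => ⟨hc.1, hc.2.1⟩
      obtain ⟨c, hc, -, hc2⟩ := hyU i
      have h2 : eval₂ (σ i) (c • (σ i ∘ y)) h ≠ 0 := hc2 rfl
      have h3 : eval y h ≠ 0 := by
        intro h0
        apply h2
        rw [Pool.Agent.Q190.SA.eval2_smul (σ i) hhom]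
        have : eval₂ (σ i) (σ i ∘ y) h = σ i (eval y h) := by
          rw [← eval₂_id]
          exact Pool.Agent.Q44.SA.eval_map _ _ _
        rw [this, h0, map_zero, mul_zero]
      rw [← ev_zero_iff] at h1 ⊢
      rw [map_mul] at h1
      refine (mul_eq_zero.1 h1).resolve_left ?_
      intro h4
      apply h3
      have := ev_eval y h 1
      rw [h4, one_smul] at this
      simpa using this.symm
  exact hp.1.2 hgC

/-- **The main theorem.** -/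
def E_top3 : Prop := ∀ (K : Type) [Field K] [NumberField K] (n : ℕ) (I : Ideal (MvPolynomial (Fin n) K)), I.IsPrime →
  Homog I → ∀ (S : Type) [Finite S] (φ ψ : S → Mor I), (∀ s, LeftInv (ψ s) (φ s)) → (∀ s, LeftInv (φ s) (ψ s)) →
  ∃ N : ℕ, N ≠ 0 ∧ ∀ (r : ℕ) (L : Fin r → Type) [∀ i, NontriviallyNormedField (L i)] [∀ i, IsUltrametricDist (L i)]
    [∀ i, CompleteSpace (L i)] (σ : ∀ i, K →+* L i), (∀ i, DenseRange (σ i)) → (∀ i, ‖(N : L i)‖ = 1) →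
    (∀ x : ∀ i, Fin n → L i, (∀ i, x i ≠ 0) →
      FinOrb φ ψ (Clos σ I x) ∧ Clos σ I x = sInf (Clos σ I x).minimalPrimes ∧
      ∀ 𝔭 ∈ (Clos σ I x).minimalPrimes, Per φ ψ 𝔭 ∧ (∀ i, ∀ f ∈ 𝔭, eval₂ (σ i) (x i) f = 0) ∧
        (0 < r → ∀ P, 𝔭 = Van {P} → Clos σ I x = 𝔭 ∧ ∀ i, ∃ c : L i, c ≠ 0 ∧ x i = c • (σ i ∘ P))) ∧
    (∀ x : ∀ i, Fin n → L i, (∀ i, x i ≠ 0) →
      (∀ 𝔭, Per φ ψ 𝔭 → (∀ i, ∀ f ∈ 𝔭, eval₂ (σ i) (x i) f = 0) → 𝔭 = I) → Clos σ I x = ⊤ ∨ Clos σ I x = I) ∧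
    (∀ P, Pt (RingHom.id K) I P → (∀ 𝔭, Per φ ψ 𝔭 → 𝔭 ≤ Van {P} → 𝔭 = I) → Clos σ I (fun i => σ i ∘ P) = I) ∧
    ({𝔭 | Per φ ψ 𝔭 ∧ NotPoint 𝔭}.Finite →
      (∀ 𝔭, Per φ ψ 𝔭 → NotPoint 𝔭 → AllFin φ ψ 𝔭 →
        {J | ∃ x : ∀ i, Fin n → L i, (∀ i, x i ≠ 0) ∧ J = Clos σ 𝔭 x}.Finite) →
      {J | ∃ x : ∀ i, Fin n → L i, (∀ i, x i ≠ 0) ∧ J = Clos σ I x}.Finite)

theorem top3 (h : E_top2) (his : E_iso) : E_top3 := by
  classical
  intro K _ _ n I hI hom S _ φ ψ h1 h2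
  obtain ⟨N, hN, h⟩ := h K n I hI hom S φ ψ h1 h2
  refine ⟨N, hN, fun r L _ _ _ σ hσ hL => ?_⟩
  obtain ⟨g1, g2, g3⟩ := h r L σ hσ hL
  refine ⟨fun x hx => ?_, fun x hx hper => ?_, g2, g3⟩
  · obtain ⟨k1, k2, k3⟩ := g1 x hx
    refine ⟨k1, k3, fun 𝔭 hp => ⟨k2 𝔭 hp, fun i => on_comp σ k3 hp (k2 𝔭 hp).2.2.1 i, ?_⟩⟩
    rintro hr P rfl
    obtain ⟨m1, m2⟩ := his K n r L σ I hom hr x hx (fun 𝔮 hq => (k2 𝔮 hq).2.2.1) P (pt_of_per (k2 _ hp)) hp
    exact ⟨m1, m2⟩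
  · obtain ⟨k1, k2, k3⟩ := g1 x hx
    by_cases ht : Clos σ I x = ⊤
    · exact Or.inl ht
    · right
      refine le_antisymm ?_ (le_clos σ hom x)
      obtain ⟨m, hm, hm2⟩ := Ideal.exists_le_maximal _ ht
      have := hm.isPrime
      obtain ⟨𝔭, hp, hp'⟩ := Ideal.exists_minimalPrimes_le hm2
      have h3 := hper 𝔭 (k2 𝔭 hp) fun i => on_comp σ k3 hp (k2 𝔭 hp).2.2.1 i
      exact hp.1.2.trans (le_of_eq h3)

end Pool.Agent.Q44.PE
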